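import Pool.Agent.Helper21.W4.St1

/-! # W4 module Ar2 -/

set_option autoImplicit false

namespace Pool.Agent.Helper75.W4

open Pool.Agent.Helper21.W4 Finset

/-- corners of a nonincreasing sequence, counted from index 1 -/
def cc (N : ℕ) (s : ℕ → ℕ) : ℕ :=
  ∑ p ∈ range N, if 2 ≤ s (p + 1) ∧ s (p + 2) < s (p + 1) then 1 else 0

theorem cc_succ (N : ℕ) (s : ℕ → ℕ) :
    cc (N + 1) s = cc N (fun p => s (p + 1)) + (if 2 ≤ s 1 ∧ s 2 < s 1 then 1 else 0) := by
  unfold cc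
  rw [Finset.sum_range_succ']

theorem ar_succ (N : ℕ) (s : ℕ → ℕ) :
    ar (N + 1) s = ar N (fun p => s (p + 1)) + (s 1 - 1) := by
  unfold ar
  rw [Finset.sum_range_succ']

theorem cc_main (N : ℕ) : ∀ s : ℕ → ℕ, (∀ p, s (p + 1) ≤ s p) →
    cc N s ≤ s 1 - 1 ∧ cc N s * cc N s + cc N s ≤ 2 * ar N s := by
  induction N with
  | zero => intro s _; simp [cc]
  | succ N ih =>
    intro s hs
    obtain ⟨h1, h2⟩ := ih (fun p => s (p + 1)) (fun p => hs (p + 1))
    rw [cc_succ, ar_succ]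
    have h12 : s 2 ≤ s 1 := hs 1
    have e2 : s (1 + 1) = s 2 := rfl
    rw [e2] at h1
    generalize cc N (fun p => s (p + 1)) = c at h1 h2 ⊢
    generalize ar N (fun p => s (p + 1)) = a at h2 ⊢
    split_ifs with hc
    · obtain ⟨ha, hb⟩ := hc
      have h3 : c + 1 ≤ s 1 - 1 := by omega
      refine ⟨h3, ?_⟩
      nlinarith
    · refine ⟨by omega, ?_⟩
      nlinarith [Nat.zero_le (s 1 - 1)]

theorem cor_le (B : ℕ) (s : ℕ → ℕ) : (cor B s).card ≤ cc B s := by
  unfold cc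
  rw [← Finset.card_filter]
  unfold cor
  refine Finset.card_le_card_of_injOn (fun p => p - 1) ?_ ?_
  · intro p hp
    simp only [Finset.coe_filter, Finset.mem_range, Set.mem_ofPred_eq] at hp ⊢
    obtain ⟨h0, h1, h2, h3⟩ := hp
    have e1 : p - 1 + 1 = p := by omega
    have e2 : p - 1 + 2 = p + 1 := by omega
    rw [e1, e2]
    exact ⟨by omega, h2, h3⟩
  · intro p hp q hq h
    simp only [Finset.coe_filter, Finset.mem_range, Set.mem_ofPred_eq] at hp hq
    simp only at h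
    omega

theorem cor_main (B : ℕ) (s : ℕ → ℕ) (hs : Sq B s) :
    (cor B s).card ≤ s 1 - 1 ∧
    (cor B s).card * (cor B s).card + (cor B s).card ≤ 2 * ar B s := by
  obtain ⟨h1, h2⟩ := cc_main B s hs.anti
  have h3 := cor_le B s
  refine ⟨h3.trans h1, le_trans ?_ h2⟩
  exact Nat.add_le_add (Nat.mul_le_mul h3 h3) h3

theorem hAr2 : StAr2 := by
  intro hTr B s t hs ht hc
  obtain ⟨a1, a2⟩ := cor_main B s hs
  obtain ⟨b1, _⟩ := cor_main B t ht
  have e := (hTr B s t hs ht hc).2.1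
  have key : 2 ≤ t 1 → 1 ≤ (cor B s).card := by
    intro h
    rw [Nat.succ_le_iff, Finset.card_pos]
    refine ⟨t 1 - 1, ?_⟩
    unfold cor
    rw [Finset.mem_filter, Finset.mem_range]
    have h1 := (hc (t 1 - 1) 1).2 (by omega)
    have h2 : ¬ 1 < s (t 1 - 1 + 1) := fun h3 => by
      have := (hc (t 1 - 1 + 1) 1).1 h3
      omega
    rcases ht.bd 1 with h4 | h4
    · refine ⟨by omega, by omega, by omega, by omega⟩
    · omega
  refine ⟨a2, by rw [e]; exact b1, a1, key, fun h => key ?_⟩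
  exact (hc 1 1).1 h

end Pool.Agent.Helper75.W4
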