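import Pool.Agent.Helper21.W4.St4

/-! # W4 module G3 -/

set_option autoImplicit false

namespace Pool.Agent.Helper75.W4

open Pool.Agent.Helper21.W4

theorem nf_facts3 (A W : ℕ) (hA : 1 ≤ A) :
    0 ≤ nf A W ∧ nf A W ≤ 1 ∧ 3 * nf A W ≤ nf A W * ((W : ℤ) + 2) := by
  unfold nf
  split_ifs with h
  · refine ⟨by norm_num, by norm_num, by norm_num⟩
  · refine ⟨by norm_num, by norm_num, ?_⟩
    have : (1 : ℤ) ≤ W := by exact_mod_cast (by omega : 1 ≤ W)
    linarith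

theorem nf_zero3 (A W : ℕ) (h : W < A) : nf A W = 0 := by
  unfold nf
  rw [if_pos h]

theorem lt_of_nf3 (A W : ℕ) (h : nf A W = 0) : W < A := by
  unfold nf at h
  by_contra hc
  rw [if_neg hc] at h
  norm_num at h

theorem exc3 (u w w' d d' : ℕ) (hu : u = min w w') (h1 : u + d ≤ w) (h2 : u + d' ≤ w') :
    w' + d ≤ max w w' ∧ w + d' ≤ max w w' ∧ u + d + d' ≤ max w w' := by
  omega

theorem bound3 (H u w a t y z al : ℕ) (hw : u + y + z ≤ w)
    (nt : 1 + t ≤ u + y + z) (na : 1 ≤ al)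
    (ha : 2 * w + 2 * (H + 1) * al + 2 * 1 + t * t ≤ 2 * a + 2 + t) :
    6 + 2 * H + 4 * t + t * t ≤ 2 * (y + z + u + a) + t := by
  have h1 : 2 * (H + 1) * 1 ≤ 2 * (H + 1) * al := Nat.mul_le_mul_left _ na
  omega

theorem hG3 : StG3 := by
  intro hmono hnf heps hstar hzv h3f x s H ε n t y z al n' t' y' z' al' hB hY hT hA hs
  obtain ⟨hz, hv⟩ := hzv x s hB hY
  refine hstar x hB ?_
  -- facts
  have Hd12 := hB.d12
  have Hd13 := hB.d13
  have Hd21 := hB.d21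
  have Hd23 := hB.d23
  have Hd31 := hB.d31
  have Hd32 := hB.d32
  have Hk12 := hB.k12
  have He12 := hB.e12
  have Ha12 := hB.a12
  have Tu1 := hT.u1
  have Tu2 := hT.u2
  have Tu3 := hT.u3
  have Tx12 := hT.x12
  have Tx13 := hT.x13
  have Tx23 := hT.x23
  have Td31 := hT.d31
  have Td32 := hT.d32
  have Tsp := hT.sp
  have TL := hT.L
  have Ts12 := hT.s12
  have Tε := hT.ε1
  obtain ⟨hn1, htH⟩ := hT.s13 (lt_of_le_of_lt (le_max_left _ _) hA)
  obtain ⟨hn1', htH'⟩ := hT.s23 (lt_of_le_of_lt (le_max_right _ _) hA)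
  have f := hT.f13
  have f' := hT.f23
  subst hn1
  subst hn1'
  have Fd := f.d
  have Fk := f.k
  have Fd' := f'.d
  have Fk' := f'.k
  have Fzt := f.zt
  have Fzt' := f'.zt
  have E1 := exc3 x.u1 x.w12 x.w13 x.d12 x.d13 Tu1.1 Hd12 Hd13
  have E2 := exc3 x.u2 x.w21 x.w23 x.d21 x.d23 Tu2.1 Hd21 Hd23
  have hP := bound3 H x.u1 x.w13 x.a13 t y z al (by omega) f.nt f.na f.a
  have hQ := bound3 H x.u2 x.w23 x.a23 t' y' z' al' (by omega) f'.nt f'.na f'.a
  obtain ⟨m1, m2, m3⟩ := nf_facts3 x.A1 (W1 x) hB.A1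
  obtain ⟨p1, p2, p3⟩ := nf_facts3 x.A2 (W2 x) hB.A2
  have L1 := lt_of_nf3 x.A1 (W1 x)
  have L2 := lt_of_nf3 x.A2 (W2 x)
  rw [nf_zero3 x.A3 (W3 x) hA] at hz hv
  have eW1 : W1 x = max x.w12 x.w13 := rfl
  have eW2 : W2 x = max x.w21 x.w23 := rfl
  have eW3 : x.w31 ≤ W3 x := le_max_left _ _
  rw [← eW1] at E1
  rw [← eW2] at E2
  unfold X0 at hz
  generalize W1 x = V1 at *
  generalize W2 x = V2 at *
  generalize W3 x = V3 at *
  generalize nf x.A1 V1 = k1 at *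
  generalize nf x.A2 V2 = k2 at *
  generalize k1 * ((V1 : ℤ) + 2) = q1 at *
  generalize k2 * ((V2 : ℤ) + 2) = q2 at *
  have hek : 1 ≤ x.e12 := He12.2.2.1 (by omega)
  have ha : 2 * ((x.d12 + x.d21 : ℕ) : ℤ) + (x.e12 : ℤ) * x.e12 + 4 ≤
      2 * (x.a12 : ℤ) + 3 * x.e12 := by
    have : 2 * (x.d12 + x.d21) + x.e12 * x.e12 + 4 ≤ 2 * x.a12 + 3 * x.e12 := by omega
    exact_mod_cast this
  have hK : k1 + k2 = 0 → (x.e12 : ℤ) ≤ H + 1 := by
    intro h
    have h1 := L1 (by omega)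
    have h2 := L2 (by omega)
    rw [if_pos (by omega : x.w12 < x.A1), if_pos (by omega : x.w21 < x.A2)] at Ts12
    omega
  have he3 : x.e12 ≤ H + 3 := by
    have h1 : 0 ≤ (if x.w12 < x.A1 then 1 else 0) := Nat.zero_le _
    have h2 : 0 ≤ (if x.w21 < x.A2 then 1 else 0) := Nat.zero_le _
    omega
  have hg : ((H : ℤ) + 2) + (y + z) + (y' + z') + x.e12 - 1 ≤
      ((V1 : ℤ) + V2 + V3) - s := by
    omega
  set g : ℤ := ((V1 : ℤ) + V2 + V3) - s with hgdef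
  have hP' : (6 : ℤ) + 2 * H + 4 * t + t * t ≤ 2 * (y + z + x.u1 + x.a13) + t := by
    exact_mod_cast hP
  have hQ' : (6 : ℤ) + 2 * H + 4 * t' + t' * t' ≤ 2 * (y' + z' + x.u2 + x.a23) + t' := by
    exact_mod_cast hQ
  rcases Nat.eq_zero_or_pos ε with h0 | h0
  · -- ε = 0
    subst h0
    refine h3f H x.e12 x.k12 ((x.d12 + x.d21 : ℕ) : ℤ) t t' (k1 + k2) x.a12 _ _ (by omega)
      (by omega) (by omega) (by omega) (by omega) (by omega) (by omega) (by omega) (by omega)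
      (by omega) hK ha ?_ ?_
    · omega
    · omega
  · have hε : ε = 1 := by omega
    obtain ⟨c1, c2, c3, c4, c5, c6⟩ := hT.ε2 hε
    have Fa := f.a
    have Fa' := f'.a
    subst hε
    subst c1
    have ht0 : t = 0 := by omega
    have ht0' : t' = 0 := by omega
    have hz0 : z = 0 := by omega
    have hz0' : z' = 0 := by omega
    subst ht0 ht0' hz0 hz0'
    have hgood : Good (12 + (x.k12 : ℤ) - x.e12 + ((x.d12 + x.d21 : ℕ) : ℤ) + (0 : ℕ) + (0 : ℕ) -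
        3 * (k1 + k2)) (7 + x.e12 + x.a12 - (k1 + k2)) := by
      refine h3f (0 : ℕ) x.e12 x.k12 ((x.d12 + x.d21 : ℕ) : ℤ) (0 : ℕ) (0 : ℕ) (k1 + k2) x.a12 _ _
        (by omega) (by omega) (by omega) (by omega) (by omega) (by omega) (by omega) (by omega)
        (by omega) (by omega) hK ha (le_refl _) ?_
      push_cast
      omega
    refine heps _ _ _ _ hgood ?_ ?_ ?_ ?_
    · omega
    · omega
    · omega
    · omega

end Pool.Agent.Helper75.W4
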