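import Pool.Agent.Helper21.W4.St4

/-! # W4 module G5 -/

set_option autoImplicit false

namespace Pool.Agent.Helper75.W4

open Pool.Agent.Helper21.W4

theorem nf_facts (A W : ℕ) (hA : 1 ≤ A) :
    0 ≤ nf A W ∧ nf A W ≤ 1 ∧ 3 * nf A W ≤ nf A W * ((W : ℤ) + 2) := by
  unfold nf
  split_ifs with h
  · refine ⟨by norm_num, by norm_num, by norm_num⟩
  · refine ⟨by norm_num, by norm_num, ?_⟩
    have : (1 : ℤ) ≤ W := by exact_mod_cast (by omega : 1 ≤ W)
    linarith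

theorem nf_zero (A W : ℕ) (h : W < A) : nf A W = 0 := by
  unfold nf
  rw [if_pos h]

theorem exc (u w w' d d' : ℕ) (hu : u = min w w') (h1 : u + d ≤ w) (h2 : u + d' ≤ w') :
    w' + d ≤ max w w' ∧ w + d' ≤ max w w' ∧ u + d + d' ≤ max w w' := by
  omega

/-- the bound for P -/
theorem boundP (H u w a t y z al : ℕ) (hu : 1 ≤ u) (hw : u + y + z ≤ w) (hy : y ≤ 1)
    (hz : z ≤ t) (ya : 1 ≤ y → u + 1 ≤ al ∧ t = z) (nt : 1 + t ≤ u + y + z) (na : 1 ≤ al)
    (ha : 2 * w + 2 * (H + 1) * al + 2 * 1 + t * t ≤ 2 * a + 2 + t) :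
    6 + 2 * H + 4 * z + z * z + 2 * y * (H + 2) ≤ 2 * (t + u + a) + z := by
  rcases Nat.eq_zero_or_pos y with h | h
  · subst h
    have h1 : 2 * (H + 1) * 1 ≤ 2 * (H + 1) * al := Nat.mul_le_mul_left _ na
    have h2 : z * z ≤ t * t := Nat.mul_le_mul hz hz
    omega
  · have hy1 : y = 1 := by omega
    subst hy1
    obtain ⟨h1, h2⟩ := ya (le_refl 1)
    subst h2
    have h3 : 2 * (H + 1) * 2 ≤ 2 * (H + 1) * al := Nat.mul_le_mul_left _ (by omega)
    omega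

/-- the bound for Q -/
theorem boundQ (H u w a t y z al : ℕ) (hu : 1 ≤ u) (hw : u + y + z ≤ w)
    (hz : z ≤ t) (na : 1 ≤ al)
    (ha : 2 * w + 2 * (H + 1) * al + 2 * 1 + t * t ≤ 2 * a + 2 + t) :
    8 + 2 * H + 4 * z + z * z ≤ 2 * (2 * u + y + z + a) + z := by
  have h1 : 2 * (H + 1) * 1 ≤ 2 * (H + 1) * al := Nat.mul_le_mul_left _ na
  have h2 : z * z + t ≤ t * t + z := by
    obtain ⟨j, rfl⟩ := Nat.exists_eq_add_of_le hz
    rcases Nat.eq_zero_or_pos j with h | h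
    · subst h; simp
    · nlinarith [Nat.mul_le_mul h h, Nat.zero_le (z * j)]
  omega

theorem hG5 : StG5 := by
  intro hmono hnf heps hstar hzv h3m x s H ε n t y z al n' t' y' z' al' hB hY hT hA hs
  obtain ⟨hz, hv⟩ := hzv x s hB hY
  refine hstar x hB ?_
  -- facts
  have Hd12 := hB.d12
  have Hd13 := hB.d13
  have Hd21 := hB.d21
  have Hd23 := hB.d23
  have Hd31 := hB.d31
  have Hd32 := hB.d32
  have Hk12 := hB.k12
  have Hk13 := hB.k13
  have Hk23 := hB.k23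
  have He12 := hB.e12
  have Ha12 := hB.a12
  have Tu1 := hT.u1
  have Tu2 := hT.u2
  have Tu3 := hT.u3
  have Tx12 := hT.x12
  have Tx13 := hT.x13
  have Tx23 := hT.x23
  have Td31 := hT.d31
  have Td32 := hT.d32
  have Tsp := hT.sp
  have TL := hT.L
  have Tdn := hT.dn
  have Ts12 := hT.s12
  have Tε := hT.ε1
  obtain ⟨hn1, htH⟩ := hT.s13 (lt_of_le_of_lt (le_max_left _ _) hA)
  obtain ⟨hn1', htH'⟩ := hT.s23 (lt_of_le_of_lt (le_max_right _ _) hA)
  have f := hT.f13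
  have f' := hT.f23
  subst hn1
  subst hn1'
  have Fe := f.e
  have Fd := f.d
  have Fk := f.k
  have Fe' := f'.e
  have Fd' := f'.d
  have Fk' := f'.k
  have Fzt := f.zt
  have Fzt' := f'.zt
  have Fyn := f.yn
  have Fnt' := f'.nt
  have Fya' := f'.ya
  have E1 := exc x.u1 x.w12 x.w13 x.d12 x.d13 Tu1.1 Hd12 Hd13
  have E2 := exc x.u2 x.w21 x.w23 x.d21 x.d23 Tu2.1 Hd21 Hd23
  have hP := boundP H x.u1 x.w13 x.a13 t y z al Tu1.2 (by omega) Fyn Fzt f.ya f.nt f.na f.a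
  have hQ := boundQ H x.u2 x.w23 x.a23 t' y' z' al' Tu2.2 (by omega) Fzt' f'.na f'.a
  obtain ⟨m1, m2, m3⟩ := nf_facts x.A1 (W1 x) hB.A1
  obtain ⟨p1, p2, p3⟩ := nf_facts x.A2 (W2 x) hB.A2
  rw [nf_zero x.A3 (W3 x) hA] at hz hv
  have eW1 : W1 x = max x.w12 x.w13 := rfl
  have eW2 : W2 x = max x.w21 x.w23 := rfl
  have eW3 : x.w31 ≤ W3 x := le_max_left _ _
  rw [← eW1] at E1
  rw [← eW2] at E2
  unfold X0 at hz
  generalize W1 x = V1 at *
  generalize W2 x = V2 at *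
  generalize W3 x = V3 at *
  generalize nf x.A1 V1 = k1 at *
  generalize nf x.A2 V2 = k2 at *
  generalize k1 * ((V1 : ℤ) + 2) = q1 at *
  generalize k2 * ((V2 : ℤ) + 2) = q2 at *
  have hu2 : 1 + t' ≤ x.u2 + z' := by
    rcases Nat.eq_zero_or_pos y' with h | h
    · omega
    · have := Fya' h
      omega
  have hek : 1 ≤ x.e12 := He12.2.2.1 (by omega)
  have ha : 2 * ((x.d12 + x.d21 : ℕ) : ℤ) + (x.e12 : ℤ) * x.e12 + 4 ≤
      2 * (x.a12 : ℤ) + 3 * x.e12 := by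
    have : 2 * (x.d12 + x.d21) + x.e12 * x.e12 + 4 ≤ 2 * x.a12 + 3 * x.e12 := by omega
    exact_mod_cast this
  have hg : (x.u2 : ℤ) + x.d21 + x.d23 + x.d12 + t ≤ ((V1 : ℤ) + V2 + V3) - s := by omega
  set g : ℤ := ((V1 : ℤ) + V2 + V3) - s with hgdef
  have hP' : (6 : ℤ) + 2 * H + 4 * z + z * z + 2 * y * (H + 2) ≤ 2 * (t + x.u1 + x.a13) + z := by
    exact_mod_cast hP
  have hQ' : (8 : ℤ) + 2 * H + 4 * z' + z' * z' ≤ 2 * (2 * x.u2 + y' + z' + x.a23) + z' := by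
    exact_mod_cast hQ
  rcases Nat.eq_zero_or_pos ε with h0 | h0
  · -- ε = 0
    subst h0
    have hgood : Good (12 + ((H : ℤ) - 2 * x.dn - (t - z) - (t' - z')) + x.k12 + y + z + z')
        (g + 1 + x.a12 + x.a13 + x.a23 + x.bk) := by
      refine h3m H x.e12 x.k12 ((x.d12 + x.d21 : ℕ) : ℤ) y z z'
        ((H : ℤ) - 2 * x.dn - (t - z) - (t' - z')) x.a12 _ _ (by omega) (by omega) (by omega)
        (by omega) (by omega) (by omega) (by omega) (by omega) (by omega) (by omega) (by omega)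
        (by omega) (by omega) ha (le_refl _) ?_
      push_cast
      omega
    refine hnf _ _ _ _ (k1 + k2) hgood ?_ (by omega) (by omega) ?_ ?_
    · have : (0 : ℤ) ≤ x.e12 * x.e12 := by positivity
      omega
    · push_cast at hz
      omega
    · omega
  · have hε : ε = 1 := by omega
    obtain ⟨c1, c2, c3, c4, c5, c6⟩ := hT.ε2 hε
    have Fa := f.a
    have Fa' := f'.a
    subst hε
    subst c1
    have ht0 : t = 0 := by omega
    have ht0' : t' = 0 := by omega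
    have hz0 : z = 0 := by omega
    have hz0' : z' = 0 := by omega
    subst ht0 ht0' hz0 hz0'
    have hgood : Good (12 + (-2 * (x.dn : ℤ)) + x.k12 + y + (0 : ℕ) + (0 : ℕ))
        (((x.d12 + x.d21 : ℕ) : ℤ) + x.a12 + 7 + 2 * y) := by
      refine h3m (0 : ℕ) x.e12 x.k12 ((x.d12 + x.d21 : ℕ) : ℤ) y (0 : ℕ) (0 : ℕ)
        (-2 * (x.dn : ℤ)) x.a12 _ _ (by omega) (by omega) (by omega)
        (by omega) (by omega) (by omega) (by omega) (by omega) (by omega) (by omega) (by omega)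
        (by omega) (by omega) ha (le_refl _) ?_
      push_cast
      linarith
    have hgood2 := hnf _ _ (12 + (-2 * (x.dn : ℤ)) + x.k12 + y + (0 : ℕ) + (0 : ℕ) - 3 * (k1 + k2))
      ((((x.d12 + x.d21 : ℕ) : ℤ) + x.a12 + 7 + 2 * y) - (k1 + k2)) (k1 + k2) hgood
      (by omega) (by omega) (by omega) (le_refl _) (le_refl _)
    refine heps _ _ _ _ hgood2 ?_ ?_ ?_ ?_
    · omega
    · omega
    · push_cast at hz
      omega
    · omega

end Pool.Agent.Helper75.W4
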