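import Pool.Agent.Helper21.W4.St5

/-! # W4 module Tcl -/

set_option autoImplicit false

namespace Pool.Agent.Helper75.W4

open Pool.Agent.Helper21.W4 Finset

theorem sw12 {G : Type} [AddCommGroup G] (D : ℕ → ℕ → ℕ → Prop) (g1 g2 g3 : G)
    (h : TD D g1 g2 g3) : TD (fun a b c => D b a c) g2 g1 g3 where
  down := fun p q r p' q' r' h0 hp hq hr => h.down q p r q' p' r' h0 hq hp hr
  inj := fun p q r p' q' r' h0 h1 he => by
    obtain ⟨a, b, c⟩ := h.inj q p r q' p' r' h0 h1 (by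
      rw [add_comm (q • g1), add_comm (q' • g1)]; exact he)
    exact ⟨b, a, c⟩
  nf := fun p q r => by
    obtain ⟨p', q', r', h0, he⟩ := h.nf q p r
    refine ⟨q', p', r', h0, ?_⟩
    rw [add_comm (q' • g2), add_comm (p • g2)]; exact he
  fin := by
    obtain ⟨B, hB⟩ := h.fin
    exact ⟨B, fun p q r h0 => ⟨(hB q p r h0).2.1, (hB q p r h0).1, (hB q p r h0).2.2⟩⟩
  one := ⟨h.one.2.1, h.one.1, h.one.2.2⟩

theorem sw23 {G : Type} [AddCommGroup G] (D : ℕ → ℕ → ℕ → Prop) (g1 g2 g3 : G)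
    (h : TD D g1 g2 g3) : TD (fun a b c => D a c b) g1 g3 g2 where
  down := fun p q r p' q' r' h0 hp hq hr => h.down p r q p' r' q' h0 hp hr hq
  inj := fun p q r p' q' r' h0 h1 he => by
    obtain ⟨a, b, c⟩ := h.inj p r q p' r' q' h0 h1 (by
      rw [add_right_comm (p • g1), add_right_comm (p' • g1)]; exact he)
    exact ⟨a, c, b⟩
  nf := fun p q r => by
    obtain ⟨p', q', r', h0, he⟩ := h.nf p r q
    refine ⟨p', r', q', h0, ?_⟩
    rw [add_right_comm (p' • g1), add_right_comm (p • g1)]; exact he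
  fin := by
    obtain ⟨B, hB⟩ := h.fin
    exact ⟨B, fun p q r h0 => ⟨(hB p r q h0).1, (hB p r q h0).2.2, (hB p r q h0).2.1⟩⟩
  one := ⟨h.one.1, h.one.2.2, h.one.2.1⟩

theorem oc_zero (B : ℕ) (s : ℕ → ℕ) (c : ℕ) : oc B s B c = 0 := by
  unfold oc
  rw [Finset.card_eq_zero, Finset.filter_eq_empty_iff]
  intro p hp
  rw [Finset.mem_range] at hp
  omega

theorem hTcl : StTcl := by
  intro hTs1 hTs2 hTar G _ D g1 g2 g3 hD
  obtain ⟨B, h1, h2, h3, hP, hh⟩ := hTar G D g1 g2 g3 hD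
  have e2 : ∀ p q r, q < h2 p r ↔ D p q r := fun p q r => by rw [← hP.e12, hh]
  have e3 : ∀ p q r, r < h3 p q ↔ D p q r := fun p q r => by rw [← hP.e13, hh]
  rcases hTs1 G D g1 g2 g3 hD with ⟨c1, c2, c3, k1, k2, k3, hs, n1, n2, n3, hz⟩ | hs
  · refine ⟨B, h1, h2, h3, c1, c2, c3, ?_, hh⟩
    have hD1 := sw12 D g1 g2 g3 hD
    have hD2 := sw23 D g1 g2 g3 hD
    have hD3 := sw12 _ _ _ _ hD2
    have hD4 := sw23 _ _ _ _ hD1
    have hD5 := sw12 _ _ _ _ hD4
    exact {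
      pp := hP
      g1 := k1
      g2 := k2
      g3 := k3
      s1 := fun p q r => by rw [hh, e2, e3, e3, hs p q r]
      gen := Or.inl ⟨(e2 c1 c2 0).2 n1, (e3 c1 0 c3).2 n2, (e3 0 c2 c3).2 n3⟩
      o12 := hTs2 G D g1 g2 g3 hD c1 c2 c3 k1 k2 k3 hz _ (fun p q => e2 p q 0) B
      o21 := hTs2 G _ _ _ _ hD1 c2 c1 c3 k2 k1 k3 (by
        rw [← hz]; abel) _ (fun p q => hh q p 0) B
      o13 := hTs2 G _ _ _ _ hD2 c1 c3 c2 k1 k3 k2 (by
        rw [← hz]; abel) _ (fun p q => e3 p 0 q) B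
      o31 := hTs2 G _ _ _ _ hD3 c3 c1 c2 k3 k1 k2 (by
        rw [← hz]; abel) _ (fun p q => hh q 0 p) B
      o23 := hTs2 G _ _ _ _ hD4 c2 c3 c1 k2 k3 k1 (by
        rw [← hz]; abel) _ (fun p q => e3 0 p q) B
      o32 := hTs2 G _ _ _ _ hD5 c3 c2 c1 k3 k2 k1 (by
        rw [← hz]; abel) _ (fun p q => e2 0 q p) B }
  · refine ⟨B, h1, h2, h3, B, B, B, ?_, hh⟩
    have hB : 1 ≤ B := by
      have := hP.bd 0 0 0 (by have := hP.n1; omega)
      omega
    exact {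
      pp := hP
      g1 := hB
      g2 := hB
      g3 := hB
      s1 := fun p q r => by
        rw [hh, e2, e3, e3, hs p q r]
        constructor
        · rintro ⟨a, b, c⟩
          refine ⟨a, b, c, ?_⟩
          have := hP.bd p q 0 ((hh p q 0).2 a)
          omega
        · rintro ⟨a, b, c, _⟩
          exact ⟨a, b, c⟩
      gen := Or.inr ⟨le_refl _, le_refl _, le_refl _⟩
      o12 := by rw [oc_zero]; exact Nat.zero_le _
      o21 := by rw [oc_zero]; exact Nat.zero_le _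
      o13 := by rw [oc_zero]; exact Nat.zero_le _
      o31 := by rw [oc_zero]; exact Nat.zero_le _
      o23 := by rw [oc_zero]; exact Nat.zero_le _
      o32 := by rw [oc_zero]; exact Nat.zero_le _ }

end Pool.Agent.Helper75.W4
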