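import Pool.Agent.Helper21.W4.St5

/-! # W4 module Woo -/

set_option autoImplicit false

namespace Pool.Agent.Helper75.W4

open Pool.Agent.Helper21.W4 Finset

theorem one_sum (B m : ℕ) (hm : m < B ∨ m = 0) (P C : ℕ → Prop) [DecidablePred P]
    [DecidablePred C] (hP : ∀ r, P r ↔ r < m) :
    (∑ r ∈ range B, if P r then (if C r then (if m = r + 1 then r + 1 else 0) else 0) else 0) =
      if C (m - 1) then m else 0 := by
  rcases Nat.eq_zero_or_pos m with h | h
  · subst h
    have : ∀ r ∈ range B,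
        (if P r then (if C r then (if 0 = r + 1 then r + 1 else 0) else 0) else 0) = 0 := by
      intro r _
      rw [if_neg (by rw [hP]; omega)]
    rw [Finset.sum_eq_zero this]
    simp
  · rw [Finset.sum_eq_single (m - 1)]
    · rw [if_pos ((hP _).2 (by omega)), if_pos (by omega : m = m - 1 + 1)]
      rw [show m - 1 + 1 = m by omega]
    · intro r _ hr
      by_cases h1 : P r
      · rw [if_pos h1, if_neg (by omega : ¬ m = r + 1)]
        simp
      · rw [if_neg h1]
    · intro h2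
      exfalso
      apply h2
      rw [Finset.mem_range]
      omega

/-- the sum over the points with C, as a triple sum -/
theorem triple (B : ℕ) (h1 : ℕ → ℕ → ℕ) (C : ℕ × ℕ × ℕ → Prop) [DecidablePred C]
    (f : ℕ × ℕ × ℕ → ℕ) :
    ∑ x ∈ (pts B h1).filter C, f x =
      ∑ p ∈ range B, ∑ q ∈ range B, ∑ r ∈ range B,
        if p < h1 q r then (if C (p, q, r) then f (p, q, r) else 0) else 0 := by
  unfold pts
  rw [Finset.sum_filter, Finset.sum_filter, Finset.sum_product]
  refine Finset.sum_congr rfl fun p _ => ?_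
  rw [Finset.sum_product]

theorem dir3 (B : ℕ) (h1 h2 h3 : ℕ → ℕ → ℕ) (hh : PP0 B h1 h2 h3) (hA : Ar B h3)
    (C : ℕ × ℕ × ℕ → Prop) [DecidablePred C] :
    ∑ x ∈ (pts B h1).filter C, (if h3 x.1 x.2.1 = x.2.2 + 1 then x.2.2 + 1 else 0) =
      ∑ p ∈ range B, ∑ q ∈ range B, if C (p, q, h3 p q - 1) then h3 p q else 0 := by
  rw [triple B h1 C (fun x => if h3 x.1 x.2.1 = x.2.2 + 1 then x.2.2 + 1 else 0)]
  refine Finset.sum_congr rfl fun p _ => Finset.sum_congr rfl fun q _ => ?_
  exact one_sum B (h3 p q) (hA.bd p q) (fun r => p < h1 q r) (fun r => C (p, q, r))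
    (fun r => hh.e13 p q r)

theorem dir2 (B : ℕ) (h1 h2 h3 : ℕ → ℕ → ℕ) (hh : PP0 B h1 h2 h3) (hA : Ar B h2)
    (C : ℕ × ℕ × ℕ → Prop) [DecidablePred C] :
    ∑ x ∈ (pts B h1).filter C, (if h2 x.1 x.2.2 = x.2.1 + 1 then x.2.1 + 1 else 0) =
      ∑ p ∈ range B, ∑ r ∈ range B, if C (p, h2 p r - 1, r) then h2 p r else 0 := by
  rw [triple B h1 C (fun x => if h2 x.1 x.2.2 = x.2.1 + 1 then x.2.1 + 1 else 0)]
  refine Finset.sum_congr rfl fun p _ => ?_
  rw [Finset.sum_comm]
  refine Finset.sum_congr rfl fun r _ => ?_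
  exact one_sum B (h2 p r) (hA.bd p r) (fun q => p < h1 q r) (fun q => C (p, q, r))
    (fun q => hh.e12 p q r)

theorem dir1 (B : ℕ) (h1 h2 h3 : ℕ → ℕ → ℕ) (hA : Ar B h1)
    (C : ℕ × ℕ × ℕ → Prop) [DecidablePred C] :
    ∑ x ∈ (pts B h1).filter C, (if h1 x.2.1 x.2.2 = x.1 + 1 then x.1 + 1 else 0) =
      ∑ q ∈ range B, ∑ r ∈ range B, if C (h1 q r - 1, q, r) then h1 q r else 0 := by
  rw [triple B h1 C (fun x => if h1 x.2.1 x.2.2 = x.1 + 1 then x.1 + 1 else 0)]
  rw [Finset.sum_comm]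
  refine Finset.sum_congr rfl fun q _ => ?_
  rw [Finset.sum_comm]
  refine Finset.sum_congr rfl fun r _ => ?_
  exact one_sum B (h1 q r) (hA.bd q r) (fun p => p < h1 q r) (fun p => C (p, q, r))
    (fun p => Iff.rfl)

theorem oo_sum (B : ℕ) (h1 h2 h3 : ℕ → ℕ → ℕ) (hh : PP0 B h1 h2 h3) (hA1 : Ar B h1)
    (hA2 : Ar B h2) (hA3 : Ar B h3) (C : ℕ × ℕ × ℕ → Prop) [DecidablePred C] :
    ∑ x ∈ (pts B h1).filter C, oo h1 h2 h3 x =
      (∑ q ∈ range B, ∑ r ∈ range B, if C (h1 q r - 1, q, r) then h1 q r else 0) +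
      (∑ p ∈ range B, ∑ r ∈ range B, if C (p, h2 p r - 1, r) then h2 p r else 0) +
      (∑ p ∈ range B, ∑ q ∈ range B, if C (p, q, h3 p q - 1) then h3 p q else 0) := by
  unfold oo
  rw [Finset.sum_add_distrib, Finset.sum_add_distrib, dir1 B h1 h2 h3 hA1 C,
    dir2 B h1 h2 h3 hh hA2 C, dir3 B h1 h2 h3 hh hA3 C]

theorem hWoo : StWoo := by
  intro hAr hVol B h1 h2 h3 hh
  obtain ⟨A1, A2, A3, -⟩ := hAr B h1 h2 h3 hh
  obtain ⟨V1, V2⟩ := hVol B h1 h2 h3 hh
  constructor
  · have h := oo_sum B h1 h2 h3 hh A1 A2 A3 (fun _ => True)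
    rw [Finset.filter_true] at h
    rw [h]
    simp only [if_true]
    have e1 : (∑ q ∈ range B, ∑ r ∈ range B, h1 q r) = vol B h1 := rfl
    have e2 : (∑ q ∈ range B, ∑ r ∈ range B, h2 q r) = vol B h2 := rfl
    have e3 : (∑ q ∈ range B, ∑ r ∈ range B, h3 q r) = vol B h3 := rfl
    rw [e1, e2, e3, V1, V2]
    ring
  · have h := oo_sum B h1 h2 h3 hh A1 A2 A3 (fun x => nonmax h1 h2 h3 x)
    rw [h]
    unfold NMs
    congr 1
    · congr 1
      · refine Finset.sum_congr rfl fun q _ => Finset.sum_congr rfl fun r _ => ?_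
        rcases Nat.eq_zero_or_pos (h1 q r) with h0 | h0
        · rw [h0]; simp
        · have a1 := A1.a1 q r
          have a2 := A1.a2 q r
          have hiff : nonmax h1 h2 h3 (h1 q r - 1, q, r) ↔
              (h1 (q + 1) r = h1 q r ∨ h1 q (r + 1) = h1 q r) := by
            unfold nonmax
            simp only
            rw [← hh.e12 (h1 q r - 1) (q + 1) r, ← hh.e13 (h1 q r - 1) q (r + 1)]
            omega
          simp only [hiff]
      · refine Finset.sum_congr rfl fun p _ => Finset.sum_congr rfl fun r _ => ?_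
        rcases Nat.eq_zero_or_pos (h2 p r) with h0 | h0
        · rw [h0]; simp
        · have a1 := A2.a1 p r
          have a2 := A2.a2 p r
          have hiff : nonmax h1 h2 h3 (p, h2 p r - 1, r) ↔
              (h2 (p + 1) r = h2 p r ∨ h2 p (r + 1) = h2 p r) := by
            unfold nonmax
            simp only
            rw [hh.e12 (p + 1) (h2 p r - 1) r, ← hh.e13 p (h2 p r - 1) (r + 1),
              hh.e12 p (h2 p r - 1) (r + 1)]
            omega
          simp only [hiff]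
    · refine Finset.sum_congr rfl fun p _ => Finset.sum_congr rfl fun q _ => ?_
      rcases Nat.eq_zero_or_pos (h3 p q) with h0 | h0
      · rw [h0]; simp
      · have a1 := A3.a1 p q
        have a2 := A3.a2 p q
        have hiff : nonmax h1 h2 h3 (p, q, h3 p q - 1) ↔
            (h3 (p + 1) q = h3 p q ∨ h3 p (q + 1) = h3 p q) := by
          unfold nonmax
          simp only
          rw [hh.e13 (p + 1) q (h3 p q - 1), ← hh.e12 p (q + 1) (h3 p q - 1),
            hh.e13 p (q + 1) (h3 p q - 1)]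
          omega
        simp only [hiff]

end Pool.Agent.Helper75.W4
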