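import Pool.Agent.Helper21.W4.St4

/-! # W4 module G4 -/

set_option autoImplicit false

namespace Pool.Agent.Helper75.W4

open Pool.Agent.Helper21.W4

theorem nf_facts4 (A W : ℕ) (hA : 1 ≤ A) :
    0 ≤ nf A W ∧ nf A W ≤ 1 ∧ 3 * nf A W ≤ nf A W * ((W : ℤ) + 2) := by
  unfold nf
  split_ifs with h
  · refine ⟨by norm_num, by norm_num, by norm_num⟩
  · refine ⟨by norm_num, by norm_num, ?_⟩
    have : (1 : ℤ) ≤ W := by exact_mod_cast (by omega : 1 ≤ W)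
    linarith

theorem nf_one4 (A W : ℕ) (h : A ≤ W) : nf A W = 1 := by
  unfold nf
  rw [if_neg (by omega)]

theorem exc4 (u w w' d d' : ℕ) (hu : u = min w w') (h1 : u + d ≤ w) (h2 : u + d' ≤ w') :
    w' + d ≤ max w w' ∧ w + d' ≤ max w w' ∧ u + d + d' ≤ max w w' := by
  omega

theorem bound4 (H u w a n t y z al : ℕ) (hw : u + y + z ≤ w)
    (nt : n + t ≤ u + y + z) (na : n ≤ al)
    (ha : 2 * w + 2 * (H + 1) * al + 2 * n + t * t ≤ 2 * a + 2 + t) :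
    8 * n + 4 * t + t * t ≤ 2 * (y + z + u + a) + t + 2 := by
  have h1 : 2 * 1 * n ≤ 2 * (H + 1) * al := Nat.mul_le_mul (by omega) na
  omega

theorem hG4 : StG4 := by
  intro hmono hnf hstar hzv hNF x s H ε n t y z al n' t' y' z' al' hB hY hT hA hs
  obtain ⟨hz, hv⟩ := hzv x s hB hY
  refine hstar x hB ?_
  -- facts
  have Hd12 := hB.d12
  have Hd13 := hB.d13
  have Hd21 := hB.d21
  have Hd23 := hB.d23
  have Hd31 := hB.d31
  have Hd32 := hB.d32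
  have Hk12 := hB.k12
  have He12 := hB.e12
  have Ha12 := hB.a12
  have Tu1 := hT.u1
  have Tu2 := hT.u2
  have Tu3 := hT.u3
  have Tx12 := hT.x12
  have Tx13 := hT.x13
  have Tx23 := hT.x23
  have Td31 := hT.d31
  have Td32 := hT.d32
  have Tsp := hT.sp
  have TL := hT.L
  have Tε := hT.ε1
  have Tn2 := hT.n2
  have Tn2' := hT.n2'
  have f := hT.f13
  have f' := hT.f23
  have Fd := f.d
  have Fk := f.k
  have Fd' := f'.d
  have Fk' := f'.k
  have Fzt := f.zt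
  have Fzt' := f'.zt
  have Fn1 := f.n1
  have Fn1' := f'.n1
  have E1 := exc4 x.u1 x.w12 x.w13 x.d12 x.d13 Tu1.1 Hd12 Hd13
  have E2 := exc4 x.u2 x.w21 x.w23 x.d21 x.d23 Tu2.1 Hd21 Hd23
  have hP := bound4 H x.u1 x.w13 x.a13 n t y z al (by omega) f.nt f.na f.a
  have hQ := bound4 H x.u2 x.w23 x.a23 n' t' y' z' al' (by omega) f'.nt f'.na f'.a
  obtain ⟨m1, m2, m3⟩ := nf_facts4 x.A1 (W1 x) hB.A1
  obtain ⟨p1, p2, p3⟩ := nf_facts4 x.A2 (W2 x) hB.A2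
  rw [nf_one4 x.A3 (W3 x) hA] at hz hv
  have eW1 : W1 x = max x.w12 x.w13 := rfl
  have eW2 : W2 x = max x.w21 x.w23 := rfl
  have eW3 : x.w31 ≤ W3 x := le_max_left _ _
  have eW3' : x.w32 ≤ W3 x := le_max_right _ _
  rw [← eW1] at E1
  rw [← eW2] at E2
  unfold X0 at hz
  generalize W1 x = V1 at *
  generalize W2 x = V2 at *
  generalize W3 x = V3 at *
  generalize nf x.A1 V1 = k1 at *
  generalize nf x.A2 V2 = k2 at *
  generalize k1 * ((V1 : ℤ) + 2) = q1 at *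
  generalize k2 * ((V2 : ℤ) + 2) = q2 at *
  have hek : 1 ≤ x.e12 := He12.2.2.1 (by omega)
  have ha : 2 * ((x.d12 + x.d21 : ℕ) : ℤ) + (x.e12 : ℤ) * x.e12 + 4 ≤
      2 * (x.a12 : ℤ) + 3 * x.e12 := by
    have : 2 * (x.d12 + x.d21) + x.e12 * x.e12 + 4 ≤ 2 * x.a12 + 3 * x.e12 := by omega
    exact_mod_cast this
  obtain ⟨M, hM⟩ : ∃ M : ℕ, M = max n n' := ⟨_, rfl⟩
  have hMa : n ≤ M := hM ▸ le_max_left _ _
  have hMb : n' ≤ M := hM ▸ le_max_right _ _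
  have hMc : M ≤ 2 := hM ▸ max_le Tn2 Tn2'
  have hM3 : H + 1 + M ≤ V3 := by
    rcases max_cases n n' with ⟨h, _⟩ | ⟨h, _⟩
    · rw [hM, h]; omega
    · rw [hM, h]; omega
  have hP' : (8 : ℤ) * n + 4 * t + t * t ≤ 2 * (y + z + x.u1 + x.a13) + t + 2 := by
    exact_mod_cast hP
  have hQ' : (8 : ℤ) * n' + 4 * t' + t' * t' ≤ 2 * (y' + z' + x.u2 + x.a23) + t' + 2 := by
    exact_mod_cast hQ
  have hee : (0 : ℤ) ≤ x.e12 * x.e12 := by positivity
  have htt : (t : ℤ) ≤ t * t := by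
    have : t ≤ t * t := Nat.le_mul_self t
    exact_mod_cast this
  have htt' : (t' : ℤ) ≤ t' * t' := by
    have : t' ≤ t' * t' := Nat.le_mul_self t'
    exact_mod_cast this
  have hcc : ((6 : ℤ) + 2 * ε + 2 * ((n + n') - M)) * (6 + 2 * ε + 2 * ((n + n') - M)) + 6 ≤
      18 * (((M : ℤ) + 4 * ((n : ℤ) + n') - 3) + 1) := by
    have h1 : n = 1 ∨ n = 2 := by omega
    have h2 : n' = 1 ∨ n' = 2 := by omega
    have h3 : ε = 0 ∨ ε = 1 := by omega
    rcases h1 with h1 | h1 <;> rcases h2 with h2 | h2 <;> rcases h3 with h3 | h3 <;>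
      subst h1 <;> subst h2 <;> subst h3 <;> subst hM <;> norm_num
  clear hM
  have hg : ((H : ℤ) + 1 + M) + (y + z) + (y' + z') + x.e12 - 1 ≤
      ((V1 : ℤ) + V2 + V3) - s := by
    clear hcc hz hv hP hQ hP' hQ' htt htt' hee ha eW1 eW2 Hk12 Tsp TL hMa hMb
    omega
  set g : ℤ := ((V1 : ℤ) + V2 + V3) - s with hgdef
  clear_value g
  clear E1 E2 eW1 eW2 hs
  have hgood : Good ((6 : ℤ) + 2 * ε + 2 * ((n + n') - M) + ((x.d12 + x.d21 : ℕ) : ℤ) +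
      x.k12 - x.e12 + t + t') (g + x.a12 + x.a13 + x.a23 + x.bk) := by
    refine hNF ((6 : ℤ) + 2 * ε + 2 * ((n + n') - M)) ((M : ℤ) + 4 * ((n : ℤ) + n') - 3) x.e12 x.k12
      ((x.d12 + x.d21 : ℕ) : ℤ) t t' x.a12 _ _ (by omega) (by omega) hcc (by omega) (by omega)
      (by omega) (by omega) (by omega) (by omega) (by omega) ha (le_refl _) ?_
    omega
  clear hcc
  refine hnf _ _ _ _ (k1 + k2) hgood ?_ (by omega) (by omega) ?_ ?_
  · omega
  · omega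
  · omega

end Pool.Agent.Helper75.W4
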